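import Pool.Agent.Helper14.FO.Defs

/-! Independent sets of OR-powers (IND), for MP_190084_co. -/

set_option autoImplicit false

namespace Pool.Agent.Helper14.FO

theorem st_IND : ST_IND := by
  classical
  intro V _ _ X χ hχ hL n S hS
  have hsub : S ⊆ Fintype.piFinset (fun i => S.image (fun u => u i)) := by
    intro u hu
    rw [Fintype.mem_piFinset]
    intro i
    exact Finset.mem_image_of_mem _ hu
  have hcard : S.card ≤ ∏ i, (S.image (fun u => u i)).card := by
    have := Finset.card_le_card hsub
    rwa [Fintype.card_piFinset] at this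
  have hind : ∀ i, χ * ((S.image (fun u => u i)).card : ℝ) ≤ Fintype.card V := by
    intro i
    apply hL
    intro a ha b hb
    obtain ⟨u, hu, rfl⟩ := Finset.mem_image.1 ha
    obtain ⟨v, hv, rfl⟩ := Finset.mem_image.1 hb
    exact hS u hu v hv i
  calc χ ^ n * (S.card : ℝ)
      ≤ χ ^ n * ((∏ i, (S.image (fun u => u i)).card : ℕ) : ℝ) := by
        apply mul_le_mul_of_nonneg_left _ (pow_nonneg hχ.le n)
        exact_mod_cast hcard
    _ = ∏ i : Fin n, (χ * ((S.image (fun u => u i)).card : ℝ)) := by
        rw [Finset.prod_mul_distrib, Finset.prod_const, Finset.card_univ, Fintype.card_fin]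
        push_cast
        rfl
    _ ≤ ∏ _i : Fin n, (Fintype.card V : ℝ) := by
        apply Finset.prod_le_prod
        · intro i _
          exact mul_nonneg hχ.le (Nat.cast_nonneg _)
        · intro i _
          exact hind i
    _ = (Fintype.card V : ℝ) ^ n := by
        rw [Finset.prod_const, Finset.card_univ, Fintype.card_fin]

end Pool.Agent.Helper14.FO
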